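import Pool.Agent.H53.HR.Targets

/-!
# MP_f2da09_co, module CE
-/

namespace Pool.Agent.H53.HR

open Finset
open Pool.Agent.H53.CZD (lc LE VMClosed R0)

theorem ce (hkap : KAP) (hsubc : SUBC) : CE := by
  classical
  intro F hF t H hH n G k m Q p x hG hC hP hq hk hm
  have hkap' := hkap F hF t H hH n G
  revert hk hm hkap'
  generalize R0 (t ^ 2 + t) = R
  intro hk hm hkap'
  obtain ⟨-, hpQ, hpx, hxinj, hpinj⟩ := hsubc (Fin n) G k m Q p x hC
  have hα : ∀ a : Fin (2 * R + 2), 2 * a.val < k := fun a => by have := a.2; omega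
  have hβ : ∀ a : Fin (2 * R + 2), 2 * a.val + 1 < k := fun a => by have := a.2; omega
  have he : ∀ j : Fin (2 * R + 2), j.val < m := fun j => by have := j.2; omega
  set al : Fin (2 * R + 2) → Fin k := fun a => ⟨2 * a.val, hα a⟩ with hal
  set be : Fin (2 * R + 2) → Fin k := fun a => ⟨2 * a.val + 1, hβ a⟩ with hbe
  set e : Fin (2 * R + 2) → Fin m := fun j => ⟨j.val, he j⟩ with hee
  have hab : ∀ a, al a < be a := fun a => by simp [hal, hbe, Fin.lt_def]
  have hba : ∀ a a', a < a' → be a < al a' := fun a a' h => by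
    simp only [hal, hbe, Fin.lt_def] at h ⊢
    omega
  have heinj : ∀ j j', e j = e j' → j = j' := fun j j' h => by
    simp only [hee, Fin.mk.injEq] at h
    exact Fin.ext h
  have halinj : ∀ a a', al a = al a' → a = a' := fun a a' h => by
    simp only [hal, Fin.mk.injEq] at h
    exact Fin.ext (by omega)
  choose qq hqQ hqA using fun a => hq (al a) (be a) (hab a)
  set I : Finset (Fin n) := (univ : Finset (Fin (2 * R + 2) × Fin (2 * R + 2))).image
    (fun z => p (al z.1) (e z.2)) with hI
  set T : Finset (Fin n) := (univ : Finset (Fin (2 * R + 2))).image (fun j => x (e j)) ∪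
    (univ : Finset (Fin (2 * R + 2))).image qq with hT
  have hIc : #I = (2 * R + 2) * (2 * R + 2) := by
    rw [hI, card_image_of_injective]
    · simp
    · rintro ⟨a, j⟩ ⟨a', j'⟩ h
      obtain ⟨h1, h2⟩ := hpinj _ _ _ _ h
      rw [Prod.mk.injEq]
      exact ⟨halinj _ _ h1, heinj _ _ h2⟩
  have hTc : #T ≤ (2 * R + 2) + (2 * R + 2) := by
    refine (card_union_le _ _).trans ?_
    refine add_le_add (card_image_le.trans (by simp)) (card_image_le.trans (by simp))
  have hdis : Disjoint I T := by
    rw [Finset.disjoint_left]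
    intro y hy hy'
    simp only [hI, mem_image, mem_univ, true_and, Prod.exists] at hy
    obtain ⟨a, j, rfl⟩ := hy
    simp only [hT, mem_union, mem_image, mem_univ, true_and] at hy'
    rcases hy' with ⟨j', h⟩ | ⟨a', h⟩
    · exact hpx _ _ _ h.symm
    · exact hpQ _ _ _ (h ▸ hqQ a')
  have hind : Indep G I := by
    intro y hy z hz
    simp only [hI, mem_image, mem_univ, true_and, Prod.exists] at hy hz
    obtain ⟨a, j, rfl⟩ := hy
    obtain ⟨a', j', rfl⟩ := hz
    exact hP _ _ _ _
  have hxT : ∀ j, x (e j) ∈ T := fun j => by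
    simp only [hT, mem_union, mem_image, mem_univ, true_and]
    exact Or.inl ⟨j, rfl⟩
  have hqT : ∀ a, qq a ∈ T := fun a => by
    simp only [hT, mem_union, mem_image, mem_univ, true_and]
    exact Or.inr ⟨a, rfl⟩
  have hval : ∀ u v w : Fin n, nb G T u = nb G T v → w ∈ T → G.Adj u w → G.Adj v w := by
    intro u v w huv hw huw
    have h1 := congrFun huv w
    simp only [nb, hw, huw, true_and, if_true, and_self] at h1
    by_contra hvw
    simp [hvw] at h1
  have htr : ∀ y ∈ I, ∀ z ∈ I, nb G T y = nb G T z → y = z := by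
    intro y hy z hz hyz
    simp only [hI, mem_image, mem_univ, true_and, Prod.exists] at hy hz
    obtain ⟨a, j, rfl⟩ := hy
    obtain ⟨a', j', rfl⟩ := hz
    have h1 := hval _ _ _ hyz (hxT j) ((hC.col _ _ _).2 rfl)
    have h2 : e j' = e j := (hC.col _ _ _).1 h1
    have h3 : a = a' := by
      rcases lt_trichotomy a a' with h | h | h
      · exfalso
        have h4 := hval _ _ _ hyz (hqT a) (hqA a _)
        exact hC.antiP _ _ (hba _ _ h) _ _ (hqQ a) h4.symm
      · exact h
      · exfalso
        have h4 := hval _ _ _ hyz.symm (hqT a') (hqA a' _)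
        exact hC.antiP _ _ (hba _ _ h) _ _ (hqQ a') h4.symm
    rw [h2, h3]
  have hfin := hkap' I T hG hdis hind htr
  rw [hIc] at hfin
  have : R * #T ≤ R * ((2 * R + 2) + (2 * R + 2)) := Nat.mul_le_mul_left _ hTc
  nlinarith

end Pool.Agent.H53.HR
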