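import Pool.Agent.H53.HR.Targets

/-!
# MP_f2da09_co, module CFG
-/

namespace Pool.Agent.H53.HR

open Finset
open Pool.Agent.H53.CZD (lc LE VMClosed R0)

theorem cfg (hlvs : LVS) (hsmp : SMP) (hhsb : HSB) : CFG := by
  classical
  intro V inst G B η k m hη hm hnb hB
  set h := 4 * (k + 1) * η * m with hh
  have hηh : η ≤ h := by
    rw [hh]
    calc η = 1 * η * 1 := by ring
      _ ≤ (4 * (k + 1)) * η * m :=
        Nat.mul_le_mul (Nat.mul_le_mul_right _ (by omega)) hm
  have h1 : 1 ≤ h := hη.trans hηh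
  obtain ⟨Q, A, B', hB'B, hB'h, hQA, hconn, hA1, hA2, hQB', hnest⟩ :=
    hlvs V G k B h h1 (by
      intro v hv
      have := (hhsb V G (B.filter (fun y => G.Adj v y)) (B.filter (fun y => G.Adj v y)) h η).2.2
        (by convert hnb v hv) subset_rfl hηh
      convert this) hB
  have hex : ∀ (l : Fin k) (b : V), ∃ a : V, b ∈ B' → a ∈ A l ∧ G.Adj b a := by
    intro l b
    by_cases hb : b ∈ B'
    · obtain ⟨a, ha, hadj⟩ := hA2 l b hb
      exact ⟨a, fun _ => ⟨ha, hadj⟩⟩
    · exact ⟨b, fun h => absurd h hb⟩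
  choose P hP using hex
  have hsub : ∀ v ∈ B, HallLE G (B'.filter (fun y => G.Adj v y)) η := by
    intro v hv
    have := (hhsb V G (B'.filter (fun y => G.Adj v y)) (B.filter (fun y => G.Adj v y)) η η).2.2
      (by convert hnb v hv) (Finset.filter_subset_filter _ hB'B) le_rfl
    exact this
  obtain ⟨W, hWB, hWm, hW⟩ := hsmp V G B' η h k m P hη hm le_rfl hB'h
    (by intro v hv; convert hsub v (hB'B hv))
    (by intro l x hx; convert hsub (P l x) ((hQA l).2 (hP l x hx).1))
  let x : Fin m → V := fun j => ((W.equivFinOfCardEq hWm).symm j : V)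
  have hxW : ∀ j, x j ∈ W := fun j => ((W.equivFinOfCardEq hWm).symm j).2
  have hxinj : ∀ j j', x j = x j' → j = j' := fun j j' h =>
    (W.equivFinOfCardEq hWm).symm.injective (Subtype.ext h)
  have hxB : ∀ j, x j ∈ B' := fun j => hWB (hxW j)
  refine ⟨Q, fun l j => P l (x j), x, ?_, ?_⟩
  · refine ⟨hconn, ?_, ?_, ?_, ?_, ?_, ?_⟩
    · intro l l' hne
      rcases lt_or_gt_of_ne hne with hlt | hlt
      · exact ⟨(hnest l l' hlt).1, (hnest l l' hlt).2.1⟩
      · refine ⟨?_, (hnest l' l hlt).2.1.symm⟩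
        intro a ha b hb hadj
        exact (hnest l' l hlt).1 b hb a ha hadj.symm
    · intro l l' hlt j q hq
      exact (hnest l l' hlt).2.2 q hq _ (hP l' (x j) (hxB j)).1
    · intro l j
      exact hA1 l _ (hP l (x j) (hxB j)).1
    · intro l j
      refine ⟨fun hin => Finset.disjoint_left.1 (hQB' l).2 hin (hxB j), ?_⟩
      intro q hq
      exact (hQB' l).1 q hq _ (hxB j)
    · intro l j j'
      constructor
      · intro hadj
        by_contra hne
        exact (hW (x j) (hxW j) (x j') (hxW j') (fun h => hne (hxinj _ _ h))).2 l hadj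
      · rintro rfl
        exact (hP l (x j) (hxB j)).2.symm
    · intro j j'
      by_cases hjj : j = j'
      · subst hjj
        exact G.irrefl
      · exact (hW (x j) (hxW j) (x j') (hxW j') (fun h => hjj (hxinj _ _ h))).1
  · intro l j
    exact (hQA l).2 (hP l (x j) (hxB j)).1

end Pool.Agent.H53.HR
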