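import Pool.Agent.H53.HR.Targets

/-!
# MP_f2da09_co, modules CI and CN
-/

namespace Pool.Agent.H53.HR

open Finset
open Pool.Agent.H53.CZD (lc LE VMClosed R0)

theorem h21_LE_mem {F : ∀ n : ℕ, SimpleGraph (Fin n) → Prop} (hF : VMClosed F) {n : ℕ}
    {G G' : SimpleGraph (Fin n)} (h : LE G G') (hG : F n G) : F n G' := by
  induction h with
  | refl => exact hG
  | step v _ ih => exact hF.lc _ _ v ih

/-- The common end of the two cases. -/
theorem h21_end (hkap : KAP) (hfam : FAM) (F : ∀ n : ℕ, SimpleGraph (Fin n) → Prop)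
    (hF : VMClosed F) (t : ℕ) (H : SimpleGraph (Fin t)) (hH : ¬ F t H) (n : ℕ)
    (G : SimpleGraph (Fin n)) (hG : F n G) (Hb : Finset (Fin n))
    (hHb : #Hb = 2 * R0 (t ^ 2 + t) + 2)
    (Rr : Fin ((R0 (t ^ 2 + t) + 1) * (2 * R0 (t ^ 2 + t) + 3)) → Finset (Fin n))
    (hconn : ∀ i, Conn G (Rr i)) (hd : ∀ i, Disjoint (Rr i) Hb)
    (hli : ∀ i, LinearIndepOn (ZMod 2) (nb G (Rr i)) (Hb : Set (Fin n)))
    (hanti : ∀ i j, i ≠ j → Anti G (Rr i) (Rr j) ∧ Disjoint (Rr i) (Rr j)) : False := by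
  classical
  have hne : Hb.Nonempty := by
    rw [← Finset.card_pos, hHb]
    omega
  obtain ⟨G', a, hLE, haR, hnb, hind⟩ := hfam (Fin n) G Hb _ Rr hne
    (by rw [hHb]; nlinarith) hconn hd hli hanti
  have hG' : F n G' := h21_LE_mem hF hLE hG
  have hainj : Function.Injective a := by
    intro i j hij
    by_contra hne
    exact hnb i j hne (by rw [hij])
  have hIc : #((univ : Finset (Fin ((R0 (t ^ 2 + t) + 1) * (2 * R0 (t ^ 2 + t) + 3)))).image a) =
      (R0 (t ^ 2 + t) + 1) * (2 * R0 (t ^ 2 + t) + 3) := by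
    rw [card_image_of_injective _ hainj]
    simp
  have hk := hkap F hF t H hH n G' (univ.image a) Hb hG' (by
    rw [Finset.disjoint_left]
    intro y hy hy'
    simp only [mem_image, mem_univ, true_and] at hy
    obtain ⟨i, rfl⟩ := hy
    exact Finset.disjoint_left.1 (hd i) (haR i) hy') (by
    intro y hy z hz
    simp only [mem_image, mem_univ, true_and] at hy hz
    obtain ⟨i, rfl⟩ := hy
    obtain ⟨j, rfl⟩ := hz
    exact hind i j) (by
    intro y hy z hz hyz
    simp only [mem_image, mem_univ, true_and] at hy hz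
    obtain ⟨i, rfl⟩ := hy
    obtain ⟨j, rfl⟩ := hz
    by_contra hne
    exact hnb i j (fun h => hne (by rw [h])) hyz)
  rw [hIc, hHb] at hk
  nlinarith

theorem ci (hkap : KAP) (hfam : FAM) (hsubc : SUBC) : CI := by
  classical
  intro F hF t H hH n G k m Q p x hG hC hli hk hm
  obtain ⟨-, hpQ, hpx, hxinj, hpinj⟩ := hsubc (Fin n) G k m Q p x hC
  have hinj : Function.Injective
      (fun j : Fin (2 * R0 (t ^ 2 + t) + 2) => p ⟨0, by omega⟩ (Fin.castLE hm j)) := by
    intro j j' h
    exact Fin.castLE_injective hm (hpinj _ _ _ _ h).2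
  refine h21_end hkap hfam F hF t H hH n G hG
    ((univ : Finset (Fin (2 * R0 (t ^ 2 + t) + 2))).image
      (fun j => p ⟨0, by omega⟩ (Fin.castLE hm j))) ?_
    (fun a => Q ⟨a.val + 1, by have := a.2; omega⟩) (fun i => hC.conn _) ?_ ?_ ?_
  · rw [card_image_of_injective _ hinj]
    simp
  · intro i
    rw [Finset.disjoint_left]
    intro y hy hy'
    simp only [mem_image, mem_univ, true_and] at hy'
    obtain ⟨j, rfl⟩ := hy'
    exact hpQ _ _ _ hy
  · intro i
    rw [Finset.coe_image, Finset.coe_univ, Set.image_univ, linearIndepOn_range_iff hinj]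
    exact (hli ⟨0, by omega⟩ ⟨i.val + 1, by have := i.2; omega⟩
      (by simp [Fin.lt_def])).comp _ (Fin.castLE_injective hm)
  · intro i j hij
    refine hC.antiQ _ _ ?_
    intro h
    simp only [Fin.mk.injEq] at h
    exact hij (Fin.ext (by omega))

theorem h21_conn_union {V : Type} [DecidableEq V] (G : SimpleGraph V) (Q P : Finset V)
    (hQ : Conn G Q) (hP : ∀ p ∈ P, ∃ q ∈ Q, G.Adj p q) : Conn G (Q ∪ P) := by
  refine ⟨hQ.1.mono subset_union_left, ?_⟩
  intro S hS hne hneq
  by_cases h1 : (S ∩ Q).Nonempty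
  · by_cases h2 : S ∩ Q = Q
    · -- all of Q in S
      have hQS : Q ⊆ S := Finset.inter_eq_right.1 h2
      have : ∃ p ∈ P, p ∉ S := by
        by_contra hcon
        push Not at hcon
        exact hneq (Finset.Subset.antisymm hS (Finset.union_subset hQS hcon))
      obtain ⟨p, hpP, hpS⟩ := this
      obtain ⟨q, hq, hadj⟩ := hP p hpP
      exact ⟨q, hQS hq, p, mem_union_right _ hpP, hpS, hadj.symm⟩
    · obtain ⟨x, hx, y, hy, hyn, hadj⟩ := hQ.2 (S ∩ Q) Finset.inter_subset_right h1 h2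
      refine ⟨x, (mem_inter.1 hx).1, y, mem_union_left _ hy, fun h => hyn (mem_inter.2 ⟨h, hy⟩), hadj⟩
  · obtain ⟨s, hs⟩ := hne
    have hsQ : s ∉ Q := fun h => h1 ⟨s, mem_inter.2 ⟨hs, h⟩⟩
    have hsP : s ∈ P := (mem_union.1 (hS hs)).resolve_left hsQ
    obtain ⟨q, hq, hadj⟩ := hP s hsP
    exact ⟨s, hs, q, mem_union_left _ hq, fun h => h1 ⟨q, mem_inter.2 ⟨h, hq⟩⟩, hadj⟩

theorem cn (hkap : KAP) (hfam : FAM) (hsubc : SUBC) : CN := by
  classical
  intro F hF t H hH n G k m Q p x hG hC hPP hPQ hk hm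
  obtain ⟨-, hpQ, hpx, hxinj, hpinj⟩ := hsubc (Fin n) G k m Q p x hC
  have hk1 : 1 ≤ k := by nlinarith
  have hinj : Function.Injective
      (fun j : Fin (2 * R0 (t ^ 2 + t) + 2) => x (Fin.castLE hm j)) := by
    intro j j' h
    exact Fin.castLE_injective hm (hxinj hk1 _ _ h)
  refine h21_end hkap hfam F hF t H hH n G hG
    ((univ : Finset (Fin (2 * R0 (t ^ 2 + t) + 2))).image
      (fun j => x (Fin.castLE hm j))) ?_
    (fun a => Q (Fin.castLE hk a) ∪ (univ : Finset (Fin (2 * R0 (t ^ 2 + t) + 2))).image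
      (fun j => p (Fin.castLE hk a) (Fin.castLE hm j))) ?_ ?_ ?_ ?_
  · rw [card_image_of_injective _ hinj]
    simp
  · intro i
    refine h21_conn_union G _ _ (hC.conn _) ?_
    intro y hy
    simp only [mem_image, mem_univ, true_and] at hy
    obtain ⟨j, rfl⟩ := hy
    exact hC.att _ _
  · intro i
    rw [Finset.disjoint_left]
    intro y hy hy'
    simp only [mem_image, mem_univ, true_and] at hy'
    obtain ⟨j, rfl⟩ := hy'
    simp only [mem_union, mem_image, mem_univ, true_and] at hy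
    rcases hy with hy | ⟨j', hy⟩
    · exact (hC.antiX _ _).1 hy
    · exact hpx _ _ _ hy
  · intro i
    rw [Finset.coe_image, Finset.coe_univ, Set.image_univ, linearIndepOn_range_iff hinj]
    have hfun : (nb G (Q (Fin.castLE hk i) ∪
        (univ : Finset (Fin (2 * R0 (t ^ 2 + t) + 2))).image
          (fun j => p (Fin.castLE hk i) (Fin.castLE hm j))) ∘
        fun j : Fin (2 * R0 (t ^ 2 + t) + 2) => x (Fin.castLE hm j)) =
        (fun v : Fin n => (Pi.single v (1 : ZMod 2) : Fin n → ZMod 2)) ∘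
          fun j : Fin (2 * R0 (t ^ 2 + t) + 2) => p (Fin.castLE hk i) (Fin.castLE hm j) := by
      funext j w
      simp only [Function.comp, nb, mem_union, mem_image, mem_univ, true_and]
      by_cases hw : w = p (Fin.castLE hk i) (Fin.castLE hm j)
      · subst hw
        rw [if_pos ⟨Or.inr ⟨j, rfl⟩, ((hC.col _ _ _).2 rfl).symm⟩]
        simp
      · rw [Pi.single_eq_of_ne hw, if_neg]
        rintro ⟨h1 | ⟨j', h1⟩, h2⟩
        · exact (hC.antiX _ _).2 _ h1 h2.symm
        · rw [← h1] at h2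
          have h3 := (hC.col _ _ _).1 h2.symm
          exact hw (by rw [← h1, h3])
    rw [hfun]
    refine (Pi.linearIndependent_single_one (Fin n) (ZMod 2)).comp _ ?_
    intro j j' h
    exact Fin.castLE_injective hm (hpinj _ _ _ _ h).2
  · -- pairwise
    have key : ∀ i j : Fin ((R0 (t ^ 2 + t) + 1) * (2 * R0 (t ^ 2 + t) + 3)), i < j →
        Anti G (Q (Fin.castLE hk i) ∪ (univ : Finset (Fin (2 * R0 (t ^ 2 + t) + 2))).image
          (fun j => p (Fin.castLE hk i) (Fin.castLE hm j)))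
          (Q (Fin.castLE hk j) ∪ (univ : Finset (Fin (2 * R0 (t ^ 2 + t) + 2))).image
          (fun j' => p (Fin.castLE hk j) (Fin.castLE hm j'))) := by
      intro i j hij
      have hlt : Fin.castLE hk i < Fin.castLE hk j := hij
      intro a ha b hb
      simp only [mem_union, mem_image, mem_univ, true_and] at ha hb
      rcases ha with ha | ⟨j1, rfl⟩ <;> rcases hb with hb | ⟨j2, rfl⟩
      · exact (hC.antiQ _ _ hlt.ne).1 _ ha _ hb
      · exact hC.antiP _ _ hlt _ _ ha
      · exact hPQ _ _ hlt _ _ hb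
      · exact hPP _ _ _ _
    intro i j hij
    refine ⟨?_, ?_⟩
    · rcases lt_or_gt_of_ne hij with h | h
      · exact key i j h
      · intro a ha b hb hadj
        exact key j i h b hb a ha hadj.symm
    · rw [Finset.disjoint_left]
      intro y hy hy'
      simp only [mem_union, mem_image, mem_univ, true_and] at hy hy'
      have hne : Fin.castLE hk i ≠ Fin.castLE hk j := fun h => hij (Fin.castLE_injective hk h)
      rcases hy with hy | ⟨j1, rfl⟩
      · rcases hy' with hy' | ⟨j2, rfl⟩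
        · exact Finset.disjoint_left.1 (hC.antiQ _ _ hne).2 hy hy'
        · exact hpQ _ _ _ hy
      · rcases hy' with hy' | ⟨j2, h2⟩
        · exact hpQ _ _ _ hy'
        · exact hne (hpinj _ _ _ _ h2).1.symm

end Pool.Agent.H53.HR
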